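import Pool.Agent.H29.ENR.Stmts

/-! # Board enr (MP_d15c96_al), row COP: twisted periodic sequences over a finite `p'`-group -/

set_option autoImplicit false

namespace Pool.ENR

open Pool.Agent.H81.ENG

theorem TSq_zmul {T : Type} [Group T] (σ : MulAut T) (k : ℕ) (x : TSq σ k) (n i : ℤ) :
    (x : ℤ → T) (i + n * k) = (σ ^ n) ((x : ℤ → T) i) := by
  have hx : ∀ i : ℤ, (x : ℤ → T) (i + k) = σ ((x : ℤ → T) i) := x.2
  induction n using Int.induction_on with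
  | zero => simp
  | succ n ih =>
    rw [show i + ((n : ℤ) + 1) * k = (i + n * k) + k by ring, hx, ih, add_comm (n : ℤ) 1,
      zpow_add, zpow_one, MulAut.mul_apply]
  | pred n ih =>
    have h1 := hx (i + (-(n : ℤ) - 1) * k)
    rw [show i + (-(n : ℤ) - 1) * k + k = i + -(n : ℤ) * k by ring, ih] at h1
    rw [show (σ ^ (-(n : ℤ) - 1)) = σ⁻¹ * σ ^ (-(n : ℤ)) by
      rw [sub_eq_add_neg, add_comm (-(n : ℤ)) (-1), zpow_add, zpow_neg_one], MulAut.mul_apply, h1,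
      MulAut.inv_apply_self]

theorem tsh_pow_apply {T : Type} [Group T] (σ : MulAut T) (k n : ℕ) (x : TSq σ k) (i : ℤ) :
    (((tsh σ k ^ n) x : TSq σ k) : ℤ → T) i = (x : ℤ → T) (i + n) := by
  unfold tsh
  rw [restr_pow_apply, shift_pow_apply]

/-- The twisted periodic sequence with value `c` at `0` and `1` at the other `i < k`. -/
def one0 {T : Type} [Group T] (σ : MulAut T) (k : ℕ) (hk : 0 < k) (c : T) : TSq σ k :=
  ⟨fun i => if i % (k : ℤ) = 0 then (σ ^ (i / (k : ℤ))) c else 1, by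
    intro i
    have hk' : (k : ℤ) ≠ 0 := by exact_mod_cast hk.ne'
    show (if (i + k) % (k : ℤ) = 0 then (σ ^ ((i + k) / (k : ℤ))) c else 1) =
      σ (if i % (k : ℤ) = 0 then (σ ^ (i / (k : ℤ))) c else 1)
    rw [Int.add_emod_right, Int.add_ediv_of_dvd_right (dvd_refl (k : ℤ)), Int.ediv_self hk']
    by_cases h : i % (k : ℤ) = 0
    · rw [if_pos h, if_pos h, add_comm, zpow_add, zpow_one, MulAut.mul_apply]
    · rw [if_neg h, if_neg h, map_one]⟩

theorem one0_zero {T : Type} [Group T] (σ : MulAut T) (k : ℕ) (hk : 0 < k) (c : T) :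
    ((one0 σ k hk c : TSq σ k) : ℤ → T) 0 = c := by
  show (if (0 : ℤ) % (k : ℤ) = 0 then (σ ^ ((0 : ℤ) / (k : ℤ))) c else 1) = c
  simp

theorem cop_thm : COPStmt := by
  intro P _ _ p b m N τ hp hc hN hm d hL
  by_contra hv
  have hk : 0 < p ^ b := pow_pos hp.pos b
  let φ : TSq τ (p ^ b) →* (Fin (p ^ b) → P) :=
    { toFun := fun x i => (x : ℤ → P) ((i : ℕ) : ℤ)
      map_one' := rfl
      map_mul' := fun _ _ => rfl }
  have hφ : Function.Injective φ := by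
    intro x y h
    apply Subtype.ext
    funext i
    have hk' : (0 : ℤ) < ((p ^ b : ℕ) : ℤ) := by exact_mod_cast hk
    have h1 : 0 ≤ i % ((p ^ b : ℕ) : ℤ) := Int.emod_nonneg _ hk'.ne'
    have h2 : i % ((p ^ b : ℕ) : ℤ) < ((p ^ b : ℕ) : ℤ) := Int.emod_lt_of_pos _ hk'
    obtain ⟨e, he⟩ := Int.eq_ofNat_of_zero_le h1
    have h3 : e < p ^ b := by
      rw [he] at h2
      exact_mod_cast h2
    have h4 : i = (e : ℤ) + (i / ((p ^ b : ℕ) : ℤ)) * ((p ^ b : ℕ) : ℤ) := by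
      have := Int.emod_add_ediv_mul i ((p ^ b : ℕ) : ℤ)
      rw [he] at this
      exact this.symm
    have h5 : (x : ℤ → P) (e : ℤ) = (y : ℤ → P) (e : ℤ) := congrFun h ⟨e, h3⟩
    rw [h4, TSq_zmul, TSq_zmul, h5]
  have : Finite (TSq τ (p ^ b)) := Finite.of_injective φ hφ
  have hcard : ¬ p ∣ Nat.card (TSq τ (p ^ b)) := by
    intro h
    have h1 : Nat.card (TSq τ (p ^ b)) ∣ Nat.card (Fin (p ^ b) → P) :=
      Subgroup.card_dvd_of_injective φ hφ
    rw [Nat.card_fun, Nat.card_fin] at h1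
    exact hc (hp.dvd_of_dvd_pow (dvd_trans h h1))
  have hpow : ∀ (n : ℕ) (x : TSq τ (p ^ b)) (i : ℤ),
      (((tsh τ (p ^ b) ^ (p ^ (b + n))) x : TSq τ (p ^ b)) : ℤ → P) i =
        (τ ^ (p ^ n)) ((x : ℤ → P) i) := by
    intro n x i
    rw [tsh_pow_apply, show ((p ^ (b + n) : ℕ) : ℤ) = ((p ^ n : ℕ) : ℤ) * ((p ^ b : ℕ) : ℤ) by
      push_cast; ring, TSq_zmul, zpow_natCast]
  have hS : tsh τ (p ^ b) ^ (p ^ (b + N)) = 1 := by
    ext x i
    rw [hpow, hN]
    rfl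
  have h1 := coprime_fix (tsh τ (p ^ b)) hp hcard hS hL (v := b + m) hv
  apply hm
  ext c
  have h2 := hpow m (one0 τ (p ^ b) hk c) 0
  rw [h1, one0_zero] at h2
  rw [← h2]
  exact one0_zero τ (p ^ b) hk c

end Pool.ENR
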