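import Pool.Agent.H36.ENR.Stmts2

/-! # Board enr (MP_d15c96_al), row SE1 -/

set_option autoImplicit false

namespace Pool.ENR

open Pool.Agent.H81.ENG Pool.Agent.H55.NEU

theorem uu_npow {F : Type} [Field F] (b : F) (n : ℕ) : (uu b) ^ n = uu (n • b) := by
  induction n with
  | zero => rw [pow_zero, zero_smul, uu_zero]
  | succ n ih => rw [pow_succ, ih, uu_mul, succ_nsmul]

theorem ee_uu {F : Type} [Field F] (c : Fˣ) (φ : F ≃+* F) (x : F) :
    ee c φ (pr (uu x)) = pr (uu ((c : F) * φ x)) := by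
  rw [ee_pr, EE_apply]
  congr 1
  apply sl_ext
  · exact map_one φ
  · rfl
  · show ((c⁻¹ : Fˣ) : F) * φ 0 = 0
    rw [map_zero, mul_zero]
  · exact map_one φ

theorem se1_thm (hTRI : TRIStmt) (hCEN : CENStmt) : SE1Stmt := by
  intro F _ _ p r f N m _ σ hp hpr hf hq hN hm hU
  have hr : r.Prime := Fact.out
  have hcop : ∀ n : ℕ, ¬ p ∣ r ^ n := fun n h =>
    hpr ((Nat.prime_dvd_prime_iff_eq hp hr).1 (hp.dvd_of_dvd_pow h))
  refine ⟨UU F, ⊥, hU, ?_, bot_le, ?_, ?_, ?_, ?_⟩
  · intro x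
    rw [Subgroup.mem_bot, Subgroup.mem_bot, EmbeddingLike.map_eq_one_iff]
  · intro g _ x hx
    rw [Subgroup.mem_bot] at hx ⊢
    rw [hx]
    group
  · rw [Subgroup.relIndex_bot_left, card_UU, hq]
    exact hcop f
  · rw [Subgroup.relIndex_bot_left, card_UU, hq]
    exact (pow_pos hr.pos f).ne'
  · by_contra hcon
    push Not at hcon
    have hfix : ∀ x ∈ UU F, (σ ^ (p ^ m)) x = x := by
      intro x hx
      have h1 := hcon x hx
      rw [Subgroup.mem_bot] at h1
      exact mul_inv_eq_one.1 h1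
    obtain ⟨b, c, hα⟩ := hTRI F (σ ^ (p ^ m)) (fun x => by
      have h1 : pr (uu x) ∈ UU F := ⟨x, rfl⟩
      rw [hfix _ h1]
      exact h1)
    set ψ := fld (σ ^ (p ^ m)) with hψ
    have hval : ∀ x : F, (c : F) * ψ x = x := by
      intro x
      have h1 : pr (uu x) ∈ UU F := ⟨x, rfl⟩
      have h2 := hfix _ h1
      rw [hα, MulAut.mul_apply, ee_uu, MulAut.conj_apply, ← map_mul, ← map_inv, ← map_mul, uu_mul,
        uu_inv, uu_mul] at h2
      have h3 := pr_uu_inj h2
      linear_combination h3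
    have hc : (c : F) = 1 := by
      have h1 := hval 1
      rwa [map_one, mul_one] at h1
    have hψ1 : ψ = 1 := by
      ext x
      have h1 := hval x
      rw [hc, one_mul] at h1
      exact h1
    have hc1 : c = 1 := Units.ext hc
    rw [hc1, hψ1, ee_one_one, mul_one] at hα
    have h1 : (σ ^ (p ^ m)) ^ (p ^ N) = 1 := by
      rw [← pow_mul, mul_comm, pow_mul, hN, one_pow]
    rw [hα, ← map_pow] at h1
    have h2 := hCEN F _ h1
    rw [← map_pow, uu_npow, ← map_one (pr : SL2 F →* PS F), ← uu_zero] at h2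
    have h3 : p ^ N • b = 0 := pr_uu_inj h2
    have h4 : addOrderOf b ∣ p ^ N := addOrderOf_dvd_of_nsmul_eq_zero h3
    have h5 : addOrderOf b ∣ r ^ f := by
      rw [← hq]
      exact addOrderOf_dvd_natCard b
    have h6 : Nat.Coprime (p ^ N) (r ^ f) :=
      Nat.Coprime.pow _ _ ((Nat.coprime_primes hp hr).2 hpr)
    have h7 : addOrderOf b = 1 := Nat.eq_one_of_dvd_coprimes h6 h4 h5
    have h8 : b = 0 := AddMonoid.addOrderOf_eq_one_iff.1 h7
    apply hm
    rw [hα, h8, uu_zero, map_one, map_one]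

end Pool.ENR
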