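import Pool.Agent.H36.ENR.Stmts2

/-! # Board enr (MP_d15c96_al), row WCJ -/

set_option autoImplicit false

namespace Pool.ENR

open Pool.Agent.H81.ENG

theorem wcj_thm : WCJStmt := by
  intro T _ p b m σ e h d hd
  apply h d
  let φ : TSq (e * σ * e⁻¹) (p ^ b) →* TSq σ (p ^ b) :=
    { toFun := fun x => ⟨fun i => e⁻¹ ((x : ℤ → T) i), by
        intro i
        have hx : (x : ℤ → T) (i + (p ^ b : ℕ)) = (e * σ * e⁻¹) ((x : ℤ → T) i) := x.2 i
        show e⁻¹ ((x : ℤ → T) (i + (p ^ b : ℕ))) = σ (e⁻¹ ((x : ℤ → T) i))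
        rw [hx, MulAut.mul_apply, MulAut.mul_apply, MulAut.inv_apply_self]⟩
      map_one' := by
        apply Subtype.ext
        funext i
        exact map_one _
      map_mul' := by
        intro x y
        apply Subtype.ext
        funext i
        exact map_mul _ _ _ }
  refine hd.of_inj φ ?_ ?_
  · intro x y hxy
    apply Subtype.ext
    funext i
    have h1 : e⁻¹ ((x : ℤ → T) i) = e⁻¹ ((y : ℤ → T) i) :=
      congrFun (congrArg Subtype.val hxy) i
    exact (e⁻¹).injective h1
  · intro x
    apply Subtype.ext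
    funext i
    rfl

end Pool.ENR
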